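import Pool.Agent.TH435.BF.Three
import Pool.Agent.TH435.BF.Short

/-! # Short cycle covers: identifications of cubic graphs that are bipartite up to three edges

The graph `H` has the vertices `Fin n` and the edges `Fin m`; the ends of the edge `e` are `src e`
and `dst e`.  `MGraph 3 (fun e => s(src e, dst e))` says that `H` is cubic and loopless and that at
least three edges leave every odd set of vertices (`H` is bridgeless).  The graph `G` has the vertices
`W` and the same edges, with the ends `f (src e)` and `f (dst e)`: it arises from `H` by identifying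
the vertices with the same value of `f`. -/

set_option autoImplicit false

namespace Pool.Agent.Results.MP_95e9b3_co.NearlyBipartite

open Finset H76FC

/-- the set of edges `C` is even: all degrees are even, where a loop counts twice -/
def IsEven {V E : Type} [DecidableEq V] (src dst : E → V) (C : Finset E) : Prop :=
  ∀ v, Even (∑ e ∈ C, ((if src e = v then 1 else 0) + (if dst e = v then 1 else 0)))

/-- the edge set of a circuit (a cycle of the problem): a minimal nonempty even set of edges -/
def IsCircuit {V E : Type} [DecidableEq V] (src dst : E → V) (C : Finset E) : Prop :=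
  C.Nonempty ∧ IsEven src dst C ∧ ∀ D ⊆ C, D.Nonempty → IsEven src dst D → D = C

theorem six {n m : ℕ} (src dst : Fin m → Fin n) (hG : MGraph 3 (fun e => s(src e, dst e)))
    (T : Finset (Fin m)) (hT : T.card ≤ 3) (c : Fin n → Bool)
    (hc : ∀ e, e ∉ T → c (src e) ≠ c (dst e)) {W : Type} [DecidableEq W] (f : Fin n → W) :
    Pool.Agent.TH435.BF.Short.Six (f ∘ src) (f ∘ dst) := by
  classical
  obtain ⟨M, hM1, hM2⟩ : ∃ M : Fin 6 → Set (Fin m),
      (∀ i v, ∃! e, e ∈ M i ∧ v ∈ s(src e, dst e)) ∧ ∀ e, {i | e ∈ M i}.ncard = 2 :=
    Pool.Agent.TH435.BF.mcover_sides (fun e => s(src e, dst e)) hG T hT c (by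
      intro e he u v huv
      have h1 := hc e he
      rcases Sym2.eq_iff.1 huv with ⟨h2, h3⟩ | ⟨h2, h3⟩
      · rw [← h2, ← h3]; exact h1
      · rw [← h2, ← h3]; exact h1.symm)
  have hne : ∀ e, src e ≠ dst e := by
    intro e he
    exact hG.1 e (by simp [he])
  refine ⟨fun i => univ.filter (fun e => e ∉ M i), ?_, ?_⟩
  · intro i w
    have hdeg : ∀ v : Fin n, ∑ e ∈ univ.filter (fun e => e ∉ M i),
        ((if src e = v then 1 else 0) + (if dst e = v then 1 else 0)) = 2 := by
      intro v
      have h3 : ((univ : Finset (Fin m)).filter (fun e => v ∈ s(src e, dst e))).card = 3 := by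
        have := hG.2.1 v
        rwa [Set.ncard_eq_toFinset_card', Set.toFinset_ofPred] at this
      obtain ⟨e₀, he₀, huniq⟩ := hM1 i v
      have h1 : ((univ : Finset (Fin m)).filter
          (fun e => v ∈ s(src e, dst e) ∧ e ∈ M i)).card = 1 := by
        rw [card_eq_one]
        refine ⟨e₀, ?_⟩
        ext e
        simp only [mem_filter, mem_univ, true_and, mem_singleton]
        constructor
        · intro h; exact huniq e ⟨h.2, h.1⟩
        · rintro rfl; exact ⟨he₀.2, he₀.1⟩
      have h2 := card_filter_add_card_filter_not
        (s := (univ : Finset (Fin m)).filter (fun e => v ∈ s(src e, dst e))) (fun e => e ∈ M i)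
      rw [filter_filter, filter_filter, h3, h1] at h2
      have h5 : ∑ e ∈ univ.filter (fun e => e ∉ M i),
          ((if src e = v then 1 else 0) + (if dst e = v then 1 else 0)) =
          ((univ : Finset (Fin m)).filter (fun e => v ∈ s(src e, dst e) ∧ e ∉ M i)).card := by
        rw [card_filter, sum_filter]
        refine sum_congr rfl fun e _ => ?_
        have h6 := hne e
        by_cases h7 : e ∈ M i
        · simp [h7]
        · by_cases h8 : src e = v
          · subst h8
            simp [h7, h6.symm]
          · by_cases h9 : dst e = v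
            · subst h9
              simp [h7, h8]
            · have h10 : ¬ v = src e := fun h => h8 h.symm
              have h11 : ¬ v = dst e := fun h => h9 h.symm
              simp [h7, h8, h9, h10, h11]
      omega
    have h1 : ∑ v ∈ univ.filter (fun v => f v = w), ∑ e ∈ univ.filter (fun e => e ∉ M i),
        ((if src e = v then 1 else 0) + (if dst e = v then 1 else 0)) =
        ∑ e ∈ univ.filter (fun e => e ∉ M i),
          ((if (f ∘ src) e = w then 1 else 0) + (if (f ∘ dst) e = w then 1 else 0)) := by
      rw [sum_comm]
      refine sum_congr rfl fun e _ => ?_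
      rw [sum_add_distrib, sum_ite_eq, sum_ite_eq]
      simp only [mem_filter, mem_univ, true_and, Function.comp]
    rw [← h1]
    exact even_sum _ fun v _ => by rw [hdeg v]; exact ⟨1, rfl⟩
  · intro e
    have h1 := hM2 e
    rw [Set.ncard_eq_toFinset_card', Set.toFinset_ofPred] at h1
    have h2 := card_filter_add_card_filter_not (s := (univ : Finset (Fin 6))) (fun i => e ∈ M i)
    rw [card_univ, Fintype.card_fin, h1] at h2
    have h3 : univ.filter (fun i : Fin 6 => e ∈ univ.filter (fun e => e ∉ M i)) =
        univ.filter (fun i : Fin 6 => ¬ e ∈ M i) := by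
      ext i
      simp
    rw [h3]
    omega

/-- **Theorem.** Let `H` be a bridgeless cubic multigraph which becomes bipartite after deleting at
most three edges, and let `G` arise from `H` by identifying vertices in any way.  Then the `m` edges of
`G` can be covered by circuits of total length at most `22 m / 15`. -/
theorem result {n m : ℕ} (src dst : Fin m → Fin n) (hG : MGraph 3 (fun e => s(src e, dst e)))
    (T : Finset (Fin m)) (hT : T.card ≤ 3) (c : Fin n → Bool)
    (hc : ∀ e, e ∉ T → c (src e) ≠ c (dst e)) {W : Type} [Fintype W] [DecidableEq W]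
    (f : Fin n → W) :
    ∃ F : Multiset (Finset (Fin m)), (∀ C ∈ F, IsCircuit (f ∘ src) (f ∘ dst) C) ∧
      (∀ e, ∃ C ∈ F, e ∈ C) ∧ 15 * (F.map Finset.card).sum ≤ 22 * m := by
  have h := Pool.Agent.TH435.BF.Short.short_cover (six src dst hG T hT c hc f)
  rw [Fintype.card_fin] at h
  exact h

end Pool.Agent.Results.MP_95e9b3_co.NearlyBipartite
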