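import Pool.Agent.TH455.TFA.BF

set_option autoImplicit false

/-! # Short cycle covers of graphs of treewidth at most four

A finite graph, loops and parallel edges allowed, has vertex set `V` and edge set `E`; the ends of
the edge `e` are `src e` and `dst e`. -/

namespace Pool.Agent.Results.MP_95e9b3_co.TreewidthFour

open Finset

/-- the simple graph in which two distinct vertices are adjacent if an edge in `F` joins them -/
def under {V E : Type} (src dst : E → V) (F : Set E) : SimpleGraph V where
  Adj x y := x ≠ y ∧ ∃ e ∈ F, (src e = x ∧ dst e = y) ∨ (src e = y ∧ dst e = x)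
  symm := ⟨fun _ _ h => ⟨h.1.symm, h.2.imp fun _ he => ⟨he.1, he.2.symm⟩⟩⟩
  loopless := ⟨fun _ h => h.1 rfl⟩

/-- the edge `e` is a bridge: its ends are not connected by the other edges -/
def IsBridge {V E : Type} (src dst : E → V) (e : E) : Prop :=
  ¬ (under src dst {e' | e' ≠ e}).Reachable (src e) (dst e)

/-- tree decomposition of the graph, with bags `bag i` for the nodes `i` of the tree `T` -/
def IsTreeDecomposition {V E ι : Type} (src dst : E → V) (T : SimpleGraph ι)
    (bag : ι → Finset V) : Prop :=
  T.IsTree ∧ (∀ v, ∃ i, v ∈ bag i) ∧ (∀ e, ∃ i, src e ∈ bag i ∧ dst e ∈ bag i) ∧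
    ∀ (i j : ι) (p : T.Walk i j), p.IsPath → ∀ k ∈ p.support, ∀ v, v ∈ bag i → v ∈ bag j →
      v ∈ bag k

/-- the treewidth is at most `k` -/
def TreewidthLE {V E : Type} (src dst : E → V) (k : ℕ) : Prop :=
  ∃ (ι : Type) (_ : Fintype ι) (T : SimpleGraph ι) (bag : ι → Finset V),
    IsTreeDecomposition src dst T bag ∧ ∀ i, (bag i).card ≤ k + 1

/-- the set of edges `C` is even: all degrees are even, where a loop counts twice -/
def IsEven {V E : Type} [DecidableEq V] (src dst : E → V) (C : Finset E) : Prop :=
  ∀ v, Even (∑ e ∈ C, ((if src e = v then 1 else 0) + (if dst e = v then 1 else 0)))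

/-- the edge set of a circuit (a cycle of the problem): a minimal nonempty even set of edges -/
def IsCircuit {V E : Type} [DecidableEq V] (src dst : E → V) (C : Finset E) : Prop :=
  C.Nonempty ∧ IsEven src dst C ∧ ∀ D ⊆ C, D.Nonempty → IsEven src dst D → D = C

/-- **Theorem.** The edges of a bridgeless graph of treewidth at most four with `m` edges can be
covered by circuits of total length at most `22 m / 15`. -/
theorem result (V E : Type) [Fintype V] [DecidableEq V] [Fintype E] [DecidableEq E]
    (src dst : E → V) (hB : ∀ e, ¬ IsBridge src dst e) (hT : TreewidthLE src dst 4) :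
    ∃ F : Multiset (Finset E), (∀ C ∈ F, IsCircuit src dst C) ∧ (∀ e, ∃ C ∈ F, e ∈ C) ∧
      15 * (F.map Finset.card).sum ≤ 22 * Fintype.card E :=
  TH455.TFA.short_cover (TH455.TFA.six_tw hB hT)

end Pool.Agent.Results.MP_95e9b3_co.TreewidthFour
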